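import Pool.Agent.Helper23.CK.Ma

set_option autoImplicit false

namespace Pool.Agent.Results.MP_7549fd_lc.CohenKurepa

open Pool.Agent.Helper23.CK

/-- There is a countable transitive model of ZFC in which the Kurepa hypothesis fails, while it
holds in every generic extension by one Cohen real. -/
theorem result : ∃ M : ZFSet.{0}, M.IsTransitive ∧ {z | z ∈ M}.Countable ∧ ZFC (Mem M) ∧
    ¬ KH (Mem M) ∧ (∃ G, IsGeneric M G) ∧
    ∀ G, IsGeneric M G → ZFC (Mem (genExt M G)) ∧ KH (Mem (genExt M G)) :=
  main

end Pool.Agent.Results.MP_7549fd_lc.CohenKurepa
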